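import Pool.Agent.H.MP_29e051_nt.Tail

namespace Pool.Agent.Results.MP_29e051_nt.NotAutomatic
open Pool.Agent.H.MP_29e051_nt

/-- the number A_k. -/
noncomputable def A (k : ℕ) : ℝ := ∑' n : ℕ, 1 / ((k : ℝ) ^ (n + 1) - 1)

/-- the digit number n+1 after the radix point in base k. -/
noncomputable def dig (k n : ℕ) : ℤ := ⌊(k : ℝ) ^ (n + 1) * A k⌋ % k

lemma A_eq (k : ℕ) (hk : 2 ≤ k) : A k = tl k 0 := by
  rw [A, lambert k hk, tl]
  simp

lemma zero_of_small (k m i : ℕ) (hk : 2 ≤ k)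
    (h : Int.fract ((k : ℝ) ^ m * A k) < 1 / (k : ℝ) ^ (i + 1)) : dig k (m + i) = 0 := by
  have hk0 : (0 : ℝ) < k := by positivity
  have h0 := Int.fract_nonneg ((k : ℝ) ^ m * A k)
  have e : ⌊(k : ℝ) ^ (m + i + 1) * A k⌋ = (k : ℤ) ^ (i + 1) * ⌊(k : ℝ) ^ m * A k⌋ := by
    rw [Int.floor_eq_iff]
    have h1 := Int.floor_add_fract ((k : ℝ) ^ m * A k)
    have h2 : (0 : ℝ) < (k : ℝ) ^ (i + 1) := by positivity
    rw [lt_div_iff₀ h2] at h
    have h3 : (k : ℝ) ^ (m + i + 1) * A k = (k : ℝ) ^ (i + 1) * ((k : ℝ) ^ m * A k) := by ring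
    rw [h3]
    push_cast
    constructor <;> nlinarith [mul_nonneg h2.le h0]
  rw [dig, e, pow_succ', mul_assoc, Int.mul_emod_right]

lemma small_of_zero (k m u : ℕ) (hk : 2 ≤ k) (h : ∀ i < u, dig k (m + i) = 0) :
    Int.fract ((k : ℝ) ^ m * A k) < 1 / (k : ℝ) ^ u := by
  have hk0 : (0 : ℝ) < k := by positivity
  have e : ⌊(k : ℝ) ^ (m + u) * A k⌋ = (k : ℤ) ^ u * ⌊(k : ℝ) ^ m * A k⌋ := by
    induction u with
    | zero => simp
    | succ u ih =>
      have h1 := ih fun i hi => h i (by omega)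
      have h2 := h u (by omega)
      have h3 : ⌊(k : ℝ) ^ (m + u + 1) * A k / k⌋ = ⌊(k : ℝ) ^ (m + u + 1) * A k⌋ / k :=
        Int.floor_div_natCast _ _
      rw [show (k : ℝ) ^ (m + u + 1) * A k / k = (k : ℝ) ^ (m + u) * A k by field_simp; ring, h1] at h3
      have h4 := Int.mul_ediv_add_emod ⌊(k : ℝ) ^ (m + u + 1) * A k⌋ k
      unfold dig at h2
      rw [← add_assoc, ← h4, h2, ← h3]
      ring
  have h1 := Int.floor_add_fract ((k : ℝ) ^ m * A k)
  have h2 : (0 : ℝ) < (k : ℝ) ^ u := by positivity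
  have h3 := Int.lt_floor_add_one ((k : ℝ) ^ (m + u) * A k)
  rw [e, show (k : ℝ) ^ (m + u) * A k = (k : ℝ) ^ u * ((k : ℝ) ^ m * A k) by ring] at h3
  push_cast at h3
  rw [lt_div_iff₀ h2]
  nlinarith

lemma no_class (k : ℕ) (hk : 2 ≤ k) (C : Type) [Finite C] (c : ℕ → C)
    (hc : ∀ m m' l w, 0 < m → 0 < m' → c m = c m' → w < k ^ l →
      dig k (w + k ^ l * m) = dig k (w + k ^ l * m')) : False := by
  have hA : ∀ h : ℕ, ∃ m, 0 < m ∧ ∀ w < k ^ (2 * h), dig k (w + k ^ (2 * h) * m) = 0 := by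
    intro h
    obtain ⟨K, hK⟩ : ∃ K, K = k ^ (2 * h) := ⟨_, rfl⟩
    have hK0 : 0 < K := by rw [hK]; positivity
    obtain ⟨H, hH⟩ := main k 1 (2 * K) hk
    obtain ⟨m, t, -, -, -, h4⟩ := hH H le_rfl
    rw [← A_eq k hk] at h4
    refine ⟨m / K + 1, Nat.succ_pos _, fun w hw => ?_⟩
    rw [← hK] at hw ⊢
    have h1 := Nat.div_add_mod m K
    have h2 := Nat.mod_lt m hK0
    rw [show w + K * (m / K + 1) = m + (w + K - m % K) by rw [mul_add]; omega]
    refine zero_of_small k m _ hk (h4.trans_le ?_)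
    have : (1 : ℝ) ≤ k := by exact_mod_cast (by omega : 1 ≤ k)
    gcongr
    omega
  choose M hM0 hM using hA
  obtain ⟨y, hy⟩ := Finite.exists_infinite_fiber fun h => c (M h)
  have hinf : ((fun h => c (M h)) ⁻¹' {y}).Infinite := Set.infinite_coe_iff.1 hy
  obtain ⟨h0, hh0⟩ := hinf.nonempty
  obtain ⟨H, hH⟩ := main k (M h0) 0 hk
  obtain ⟨h, hh, hlt⟩ := hinf.exists_gt H
  obtain ⟨m, t, h1, h2, h3, -⟩ := hH h hlt.le
  rw [← A_eq k hk] at h3
  refine absurd (small_of_zero k m (t + 1) hk fun i hi => ?_) (not_lt.2 h3)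
  rw [mul_add] at h2
  rw [show m + i = (m + i - k ^ (2 * h) * M h0) + k ^ (2 * h) * M h0 by omega,
    hc _ (M h) _ _ (hM0 _) (hM0 _) (hh0.trans hh.symm) (by omega)]
  exact hM h _ (by omega)

lemma dg (k l w m : ℕ) (hk : 2 ≤ k) (hw : w < k ^ l) (hm : 0 < m) :
    Nat.digits k (w + k ^ l * m) =
      (Nat.digits k w ++ List.replicate (l - (Nat.digits k w).length) 0) ++ Nat.digits k m := by
  have h : (Nat.digits k w).length ≤ l := (Nat.digits_length_le_iff hk w).2 hw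
  rw [Nat.digits_append_zeroes_append_digits hk hm, Nat.add_sub_cancel' h]

theorem result (k : ℕ) (hk : 2 ≤ k) (S : Type) [Finite S] (q : S) (δ : S → ℕ → S) (out : S → ℤ) :
    (¬ ∀ n, out ((Nat.digits k n).reverse.foldl δ q) = dig k n) ∧
    (¬ ∀ n, out ((Nat.digits k n).foldl δ q) = dig k n) := by
  refine ⟨fun h => no_class k hk S (fun m => (Nat.digits k m).reverse.foldl δ q) ?_,
    fun h => no_class k hk (S → S) (fun m s => (Nat.digits k m).foldl δ s) ?_⟩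
  · intro m m' l w hm hm' e hw
    rw [← h, ← h, dg k l w m hk hw hm, dg k l w m' hk hw hm', List.reverse_append,
      List.reverse_append (bs := Nat.digits k m'), List.foldl_append, List.foldl_append]
    rw [e]
  · intro m m' l w hm hm' e hw
    rw [← h, ← h, dg k l w m hk hw hm, dg k l w m' hk hw hm', List.foldl_append,
      List.foldl_append (l' := Nat.digits k m')]
    exact congrArg out (congrFun e _)

end Pool.Agent.Results.MP_29e051_nt.NotAutomatic
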